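import Mathlib

set_option autoImplicit false

/-! Complete bipartite subgraphs in dense graphs. -/

namespace Pool.Agent.Zk56.EO

open Finset

theorem step {n : ℕ} (N : Fin n → Finset (Fin n)) (Y U : Finset (Fin n)) (δ : ℝ) (hδ : 0 < δ)
    (hn : 0 < n) (hN : ∀ y ∈ Y, δ * n ≤ ((N y).card : ℝ)) (hU : (U.card : ℝ) ≤ δ * n / 2)
    (hδ1 : δ ≤ 1) :
    ∃ x ∉ U, δ / 2 * Y.card ≤ ((Y.filter fun y => x ∈ N y).card : ℝ) := by
  classical
  have hn' : (0 : ℝ) < n := by exact_mod_cast hn
  have hUn : (U.card : ℝ) < n := by nlinarith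
  have hne : (univ \ U).Nonempty := by
    rw [← card_pos, card_sdiff_of_subset (subset_univ U), card_univ, Fintype.card_fin]
    have : U.card < n := by exact_mod_cast hUn
    omega
  have hsum : ∑ _x ∈ univ \ U, (δ / 2 * Y.card : ℝ) ≤
      ∑ x ∈ univ \ U, ((Y.filter fun y => x ∈ N y).card : ℝ) := by
    have h1 : ∑ x ∈ univ \ U, ((Y.filter fun y => x ∈ N y).card : ℝ) =
        ∑ y ∈ Y, ((N y \ U).card : ℝ) := by
      have h2 : ∀ x, ((Y.filter fun y => x ∈ N y).card : ℝ) =
          ∑ y ∈ Y, if x ∈ N y then (1 : ℝ) else 0 := by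
        intro x
        rw [card_filter]; push_cast; rfl
      simp only [h2]
      rw [sum_comm]
      refine sum_congr rfl fun y _ => ?_
      rw [← sum_filter, sum_const, nsmul_eq_mul, mul_one]
      congr 2
      ext x
      simp only [mem_filter, mem_sdiff, mem_univ, true_and]
      tauto
    rw [h1, sum_const, nsmul_eq_mul]
    have h3 : ∑ _y ∈ Y, (δ * n / 2 : ℝ) ≤ ∑ y ∈ Y, ((N y \ U).card : ℝ) := by
      refine sum_le_sum fun y hy => ?_
      have h4 := hN y hy
      have h5 : (N y).card ≤ (N y \ U).card + U.card := by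
        have := card_le_card (s := N y) (t := (N y \ U) ∪ U) (by
          intro x hx
          by_cases h : x ∈ U
          · exact mem_union_right _ h
          · exact mem_union_left _ (mem_sdiff.2 ⟨hx, h⟩))
        exact this.trans (card_union_le _ _)
      have h6 : ((N y).card : ℝ) ≤ (N y \ U).card + U.card := by exact_mod_cast h5
      linarith
    refine le_trans ?_ h3
    rw [sum_const, nsmul_eq_mul]
    have h7 : ((univ \ U).card : ℝ) ≤ n := by
      have := card_le_univ (univ \ U)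
      rw [Fintype.card_fin] at this
      exact_mod_cast this
    have h8 : (0 : ℝ) ≤ δ / 2 * Y.card := by positivity
    nlinarith
  obtain ⟨x, hx, hle⟩ := exists_le_of_sum_le hne hsum
  exact ⟨x, (mem_sdiff.1 hx).2, hle⟩

theorem many {n : ℕ} (N : Fin n → Finset (Fin n)) (Y : Finset (Fin n)) (δ : ℝ) (hδ : 0 < δ)
    (hδ1 : δ ≤ 1) (hn : 0 < n) (hN : ∀ y ∈ Y, δ * n ≤ ((N y).card : ℝ)) (k : ℕ)
    (hk : (k : ℝ) ≤ δ * n / 2) :
    ∃ (x : Fin k → Fin n) (Z : Finset (Fin n)), Function.Injective x ∧ Z ⊆ Y ∧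
      (δ / 2) ^ k * Y.card ≤ (Z.card : ℝ) ∧ ∀ i, ∀ z ∈ Z, x i ∈ N z := by
  classical
  induction k with
  | zero => exact ⟨Fin.elim0, Y, fun i => i.elim0, Subset.rfl, by simp, fun i => i.elim0⟩
  | succ k ih =>
    obtain ⟨x, Z, hx, hZ, hc, hmem⟩ := ih (by
      push_cast at hk
      linarith)
    obtain ⟨a, ha, hle⟩ := step N Z (univ.image x) δ hδ hn (fun y hy => hN y (hZ hy)) (by
      have h1 : (univ.image x).card ≤ k := by
        refine card_image_le.trans ?_
        simp
      have h2 : ((univ.image x).card : ℝ) ≤ k := by exact_mod_cast h1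
      push_cast at hk
      linarith) hδ1
    refine ⟨Fin.cons a x, Z.filter fun y => a ∈ N y, ?_, (filter_subset _ _).trans hZ, ?_, ?_⟩
    · rw [Fin.cons_injective_iff]
      refine ⟨fun h => ha ?_, hx⟩
      obtain ⟨i, hi⟩ := h
      exact mem_image.2 ⟨i, mem_univ _, hi⟩
    · refine le_trans ?_ hle
      rw [pow_succ]
      have : (0 : ℝ) ≤ δ / 2 := by positivity
      nlinarith
    · intro i z hz
      rw [mem_filter] at hz
      refine Fin.cases ?_ (fun i => ?_) i
      · exact hz.2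
      · exact hmem i z hz.1

theorem exists_K (k M0 : ℕ) (ε : ℝ) (hε : 0 < ε) : ∃ N : ℕ, ∀ n : ℕ, N ≤ n →
    ∀ G : SimpleGraph (Fin n), ε * (n : ℝ) ^ 2 < (G.edgeSet.ncard : ℝ) →
      ∃ (x : Fin k → Fin n) (y : Fin M0 → Fin n), Function.Injective x ∧
        Function.Injective y ∧ ∀ i j, G.Adj (x i) (y j) := by
  classical
  obtain ⟨N1, hN1⟩ := exists_nat_ge (2 * k / ε)
  obtain ⟨N2, hN2⟩ := exists_nat_ge ((M0 : ℝ) / ((ε / 2) ^ k * ε))
  refine ⟨N1 + N2 + 1, fun n hn G hG => ?_⟩
  have hn0 : 0 < n := by omega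
  have hn' : (0 : ℝ) < n := by exact_mod_cast hn0
  have hcard : (G.edgeSet.ncard : ℝ) = G.edgeFinset.card := by
    rw [Set.ncard_eq_toFinset_card']
    congr 1
  have hdeg : ∑ v, (G.degree v : ℝ) = 2 * G.edgeFinset.card := by
    have := G.sum_degrees_eq_twice_card_edges
    exact_mod_cast this
  have hdegn : ∀ v, (G.degree v : ℝ) ≤ n := by
    intro v
    have : G.degree v ≤ n := by
      have := G.degree_lt_card_verts v
      rw [Fintype.card_fin] at this
      omega
    exact_mod_cast this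
  set Y : Finset (Fin n) := univ.filter fun v => ε * n ≤ (G.degree v : ℝ) with hY
  have hYc : ε * n ≤ (Y.card : ℝ) := by
    have h1 : ∑ v, (G.degree v : ℝ) ≤ Y.card * n + n * (ε * n) := by
      have h2 : ∀ v, (G.degree v : ℝ) ≤ (if v ∈ Y then (n : ℝ) else 0) + ε * n := by
        intro v
        by_cases hv : v ∈ Y
        · rw [if_pos hv]
          have := hdegn v
          have : 0 ≤ ε * n := by positivity
          linarith [hdegn v]
        · rw [if_neg hv]
          have h3 : ¬ ε * n ≤ (G.degree v : ℝ) := by simpa [hY] using hv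
          linarith
      refine (sum_le_sum fun v _ => h2 v).trans ?_
      rw [sum_add_distrib, sum_ite_mem, univ_inter, sum_const, sum_const, nsmul_eq_mul,
        nsmul_eq_mul, card_univ, Fintype.card_fin]
    rw [hdeg, ← hcard] at h1
    have h4 : ε * n * n < Y.card * n := by nlinarith
    exact (lt_of_mul_lt_mul_right h4 hn'.le).le
  have hε1 : ε ≤ 1 := by
    have h1 : (Y.card : ℝ) ≤ n := by
      have := card_le_univ Y
      rw [Fintype.card_fin] at this
      exact_mod_cast this
    by_contra h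
    push Not at h
    nlinarith
  have hnN : (N1 : ℝ) + N2 + 1 ≤ n := by exact_mod_cast hn
  have hk : (k : ℝ) ≤ ε * n / 2 := by
    have h1 : 2 * k / ε ≤ n := by
      have : (0 : ℝ) ≤ N2 := Nat.cast_nonneg _
      linarith
    rw [div_le_iff₀ hε] at h1
    linarith
  obtain ⟨x, Z, hx, hZ, hc, hmem⟩ := many (fun y => G.neighborFinset y) Y ε hε hε1 hn0
    (fun y hy => by
      rw [G.card_neighborFinset_eq_degree]
      simpa [hY] using hy) k hk
  have hM : M0 ≤ Z.card := by
    have h1 : (M0 : ℝ) / ((ε / 2) ^ k * ε) ≤ n := by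
      have : (0 : ℝ) ≤ N1 := Nat.cast_nonneg _
      linarith
    rw [div_le_iff₀ (by positivity)] at h1
    have h2 : (M0 : ℝ) ≤ Z.card := by
      refine le_trans ?_ hc
      have h3 : (0 : ℝ) ≤ (ε / 2) ^ k := by positivity
      nlinarith
    exact_mod_cast h2
  obtain ⟨Z', hZ', hZc⟩ := exists_subset_card_eq hM
  refine ⟨x, Z'.orderEmbOfFin hZc, hx, (Z'.orderEmbOfFin hZc).injective, fun i j => ?_⟩
  have h1 := hmem i _ (hZ' (Z'.orderEmbOfFin_mem hZc j))
  rw [SimpleGraph.mem_neighborFinset] at h1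
  exact h1.symm

end Pool.Agent.Zk56.EO
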