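import Pool.Agent.Zk56.EO.Dense
import Pool.Agent.Zk56.EO.KST

set_option autoImplicit false

/-! Copies of the path in dense edge-ordered graphs. -/

namespace Pool.Agent.Zk56.EO

open Finset

theorem F_edge (e : Sym2 (Fin 7)) (he : e ∈ F.edgeSet) :
    ∃ k : Fin 6, e = s(k.castSucc, k.succ) := by
  induction e using Sym2.ind with
  | _ a b =>
  rw [SimpleGraph.mem_edgeSet, F_adj] at he
  revert a b
  decide

/-- `φ` is a copy of the edge-ordered path -/
def IsCopy {V : Type*} (G : SimpleGraph V) (M : Sym2 V → ℕ) (φ : Fin 7 ↪ V) : Prop :=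
  (∀ a b, F.Adj a b → G.Adj (φ a) (φ b)) ∧
    ∀ e ∈ F.edgeSet, ∀ f ∈ F.edgeSet, L e < L f → M (Sym2.map (⇑φ) e) < M (Sym2.map (⇑φ) f)

theorem copy_of {V : Type*} (G : SimpleGraph V) (M : Sym2 V → ℕ) (a : Fin 7 → V)
    (ha : Function.Injective a) (adj : ∀ k : Fin 6, G.Adj (a k.castSucc) (a k.succ))
    (o1 : M s(a 1, a 2) < M s(a 2, a 3)) (o2 : M s(a 2, a 3) < M s(a 5, a 6))
    (o3 : M s(a 5, a 6) < M s(a 0, a 1)) (o4 : M s(a 0, a 1) < M s(a 3, a 4))
    (o5 : M s(a 3, a 4) < M s(a 4, a 5)) : ∃ φ : Fin 7 ↪ V, IsCopy G M φ := by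
  refine ⟨⟨a, ha⟩, ?_, ?_⟩
  · intro x y hxy
    obtain ⟨k, hk⟩ := F_edge s(x, y) (by rwa [SimpleGraph.mem_edgeSet])
    rw [Sym2.eq_iff] at hk
    show G.Adj (a x) (a y)
    rcases hk with ⟨h1, h2⟩ | ⟨h1, h2⟩
    · rw [h1, h2]; exact adj k
    · rw [h1, h2]; exact (adj k).symm
  · intro e he f hf hlt
    obtain ⟨k, rfl⟩ := F_edge e he
    obtain ⟨k', rfl⟩ := F_edge f hf
    show M s(a k.castSucc, a k.succ) < M s(a k'.castSucc, a k'.succ)
    clear he hf
    fin_cases k <;> fin_cases k' <;>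
      first
      | exact absurd hlt (by decide)
      | (change M s(a 1, a 2) < M s(a 2, a 3); omega)
      | (change M s(a 1, a 2) < M s(a 5, a 6); omega)
      | (change M s(a 1, a 2) < M s(a 0, a 1); omega)
      | (change M s(a 1, a 2) < M s(a 3, a 4); omega)
      | (change M s(a 1, a 2) < M s(a 4, a 5); omega)
      | (change M s(a 2, a 3) < M s(a 5, a 6); omega)
      | (change M s(a 2, a 3) < M s(a 0, a 1); omega)
      | (change M s(a 2, a 3) < M s(a 3, a 4); omega)
      | (change M s(a 2, a 3) < M s(a 4, a 5); omega)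
      | (change M s(a 5, a 6) < M s(a 0, a 1); omega)
      | (change M s(a 5, a 6) < M s(a 3, a 4); omega)
      | (change M s(a 5, a 6) < M s(a 4, a 5); omega)
      | (change M s(a 0, a 1) < M s(a 3, a 4); omega)
      | (change M s(a 0, a 1) < M s(a 4, a 5); omega)
      | (change M s(a 3, a 4) < M s(a 4, a 5); omega)

/-- a copy from the pattern in a complete bipartite subgraph -/
theorem copy_of_hasF {V α β : Type*} (G : SimpleGraph V) (M : Sym2 V → ℕ) (x : α → V) (y : β → V)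
    (hx : Function.Injective x) (hy : Function.Injective y) (hadj : ∀ i j, G.Adj (x i) (y j))
    (h : HasF fun i j => M s(x i, y j)) : ∃ φ : Fin 7 ↪ V, IsCopy G M φ := by
  obtain ⟨r1, r2, r3, c1, c2, c3, c4, n1, n2, n3, m1, m2, m3, m4, m5, m6, o1, o2, o3, o4, o5⟩ := h
  have hne : ∀ i j, x i ≠ y j := fun i j => (hadj i j).ne
  refine copy_of G M ![y c3, x r1, y c1, x r2, y c4, x r3, y c2] ?_ ?_ ?_ ?_ ?_ ?_ ?_
  · intro i j hij
    fin_cases i <;> fin_cases j <;>
      first
      | rfl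
      | exact absurd hij (hne _ _)
      | exact absurd hij (hne _ _).symm
      | exact absurd (hx hij) n1
      | exact absurd (hx hij) n2
      | exact absurd (hx hij) n3
      | exact absurd (hx hij) n1.symm
      | exact absurd (hx hij) n2.symm
      | exact absurd (hx hij) n3.symm
      | exact absurd (hy hij) m1
      | exact absurd (hy hij) m2
      | exact absurd (hy hij) m3
      | exact absurd (hy hij) m4
      | exact absurd (hy hij) m5
      | exact absurd (hy hij) m6
      | exact absurd (hy hij) m1.symm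
      | exact absurd (hy hij) m2.symm
      | exact absurd (hy hij) m3.symm
      | exact absurd (hy hij) m4.symm
      | exact absurd (hy hij) m5.symm
      | exact absurd (hy hij) m6.symm
  · intro k
    fin_cases k
    · exact (hadj _ _).symm
    · exact hadj _ _
    · exact (hadj _ _).symm
    · exact hadj _ _
    · exact (hadj _ _).symm
    · exact hadj _ _
  · show M s(x r1, y c1) < M s(y c1, x r2)
    rw [Sym2.eq_swap (a := y c1)]; exact o1
  · show M s(y c1, x r2) < M s(x r3, y c2)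
    rw [Sym2.eq_swap (a := y c1)]; exact o2
  · show M s(x r3, y c2) < M s(y c3, x r1)
    rw [Sym2.eq_swap (a := y c3)]; exact o3
  · show M s(y c3, x r1) < M s(x r2, y c4)
    rw [Sym2.eq_swap (a := y c3)]; exact o4
  · show M s(x r2, y c4) < M s(y c4, x r3)
    rw [Sym2.eq_swap (a := y c4)]; exact o5

theorem dense (ε : ℝ) (hε : 0 < ε) : ∃ N : ℕ, ∀ n : ℕ, N ≤ n →
    ∀ (G : SimpleGraph (Fin n)) (M : Sym2 (Fin n) → ℕ), Set.InjOn M G.edgeSet →
      (¬ ∃ φ : Fin 7 ↪ Fin n, IsCopy G M φ) → (G.edgeSet.ncard : ℝ) ≤ ε * (n : ℝ) ^ 2 := by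
  obtain ⟨M0, hM0⟩ := exists_M0
  obtain ⟨N, hN⟩ := exists_K 7 M0 ε hε
  refine ⟨N, fun n hn G M hM hno => ?_⟩
  by_contra hlt
  push Not at hlt
  obtain ⟨x, y, hx, hy, hadj⟩ := hN n hn G hlt
  have hne : ∀ i j, x i ≠ y j := fun i j => (hadj i j).ne
  rcases hM0 (fun i j => M s(x i, y j)) (fun i j p q h => by
    have h1 := hM (by rw [SimpleGraph.mem_edgeSet]; exact hadj i p)
      (by rw [SimpleGraph.mem_edgeSet]; exact hadj j q) h
    rw [Sym2.eq_iff] at h1
    rcases h1 with ⟨h2, h3⟩ | ⟨h2, h3⟩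
    · exact ⟨hx h2, hy h3⟩
    · exact absurd h2 (hne _ _)) with h | h
  · exact hno (copy_of_hasF G M x y hx hy hadj h)
  · refine hno (copy_of_hasF G M y x hy hx (fun i j => (hadj j i).symm) ?_)
    have h2 : (flip fun i j => M s(x i, y j)) = fun j i => M s(y j, x i) := by
      funext j i
      show M s(x i, y j) = M s(y j, x i)
      rw [Sym2.eq_swap]
    rw [h2] at h
    exact h

end Pool.Agent.Zk56.EO
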