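import Pool.Agent.Zk56.EO.Constr
import Pool.Agent.Zk56.EO.Copy

set_option autoImplicit false

/-! The extremal function of the path is not polylogarithmic. -/

namespace Pool.Agent.Zk56.EO

open Finset Filter Topology

theorem no_copy' (b m : ℕ) : ¬ ∃ φ : Fin 7 ↪ V b m, IsCopy (G b m) (M b m) φ := no_copy b m

/-- the construction on `Fin n` -/
theorem transfer (b m n : ℕ) (hn : Fintype.card (V b m) = n) :
    ∃ (G' : SimpleGraph (Fin n)) (M' : Sym2 (Fin n) → ℕ), Set.InjOn M' G'.edgeSet ∧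
      (¬ ∃ φ : Fin 7 ↪ Fin n, IsCopy G' M' φ) ∧
      m ^ b * 2 ^ b * 2 ^ b ≤ G'.edgeSet.ncard := by
  classical
  obtain ⟨e⟩ : Nonempty (V b m ≃ Fin n) := ⟨Fintype.equivFinOfCardEq hn⟩
  refine ⟨(G b m).comap e.symm, fun s => M b m (Sym2.map e.symm s), ?_, ?_, ?_⟩
  · intro s hs t ht h
    have hmem : ∀ s ∈ ((G b m).comap e.symm).edgeSet, Sym2.map e.symm s ∈ (G b m).edgeSet := by
      intro s hs
      induction s using Sym2.ind with
      | _ x y => exact hs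
    exact Sym2.map.injective e.symm.injective (M_injOn b m (hmem s hs) (hmem t ht) h)
  · rintro ⟨φ, h1, h2⟩
    refine no_copy' b m ⟨φ.trans e.symm.toEmbedding, fun x y hxy => h1 x y hxy, ?_⟩
    intro s hs t ht hlt
    have h3 := h2 s hs t ht hlt
    simp only [Sym2.map_map] at h3
    exact h3
  · set f : Row b m × S b → Sym2 (Fin n) := fun x =>
      s(e (.inl x.1), e (.inr (colOf x.1 x.2))) with hf
    have hinj : Function.Injective f := by
      rintro ⟨r, s⟩ ⟨r', s'⟩ h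
      simp only [hf, Sym2.eq_iff, e.injective.eq_iff] at h
      rcases h with ⟨h1, h2⟩ | ⟨h1, h2⟩
      · have h3 : r = r' := Sum.inl_injective h1
        subst h3
        have h4 := Sum.inr_injective h2
        rw [colOf_inj h4]
      · exact absurd h1 (by simp)
    have hsub : Set.range f ⊆ ((G b m).comap e.symm).edgeSet := by
      rintro _ ⟨⟨r, s⟩, rfl⟩
      show (G b m).Adj (e.symm (e (.inl r))) (e.symm (e (.inr (colOf r s))))
      rw [e.symm_apply_apply, e.symm_apply_apply]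
      exact R_colOf r s
    have h1 : (Set.range f).ncard = m ^ b * 2 ^ b * 2 ^ b := by
      rw [Set.ncard_range_of_injective hinj, Nat.card_eq_fintype_card]
      simp
    rw [← h1]
    exact Set.ncard_le_ncard hsub (Set.toFinite _)

theorem card_V (b m : ℕ) :
    Fintype.card (V b m) = m ^ b * 2 ^ b + (m + 2 ^ b) ^ b * 2 ^ b := by
  simp

theorem card_le (b : ℕ) (hb : 1 ≤ b) :
    (Fintype.card (V b (b * 2 ^ b)) : ℝ) ≤ 4 * (((b * 2 ^ b : ℕ) : ℝ) ^ b * 2 ^ b) := by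
  have hb' : (0 : ℝ) < b := by exact_mod_cast hb
  rw [card_V]
  push_cast
  have h1 : ((b : ℝ) * 2 ^ b + 2 ^ b) ^ b ≤ 3 * ((b : ℝ) * 2 ^ b) ^ b := by
    have e1 : (b : ℝ) * 2 ^ b + 2 ^ b = (1 / b + 1) * ((b : ℝ) * 2 ^ b) := by
      field_simp
      ring
    rw [e1, mul_pow]
    refine mul_le_mul_of_nonneg_right ?_ (by positivity)
    have h2 : (1 / (b : ℝ) + 1) ^ b ≤ Real.exp (1 / b) ^ b :=
      pow_le_pow_left₀ (by positivity) (Real.add_one_le_exp _) b
    rw [← Real.exp_nat_mul] at h2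
    have h3 : (b : ℝ) * (1 / b) = 1 := by field_simp
    rw [h3] at h2
    have := Real.exp_one_lt_d9
    linarith
  have h4 : (0 : ℝ) < 2 ^ b := by positivity
  nlinarith

theorem log_le (b : ℕ) (hb : 1 ≤ b) :
    Real.log (Fintype.card (V b (b * 2 ^ b)) : ℝ) ≤ 5 * (b : ℝ) ^ 2 := by
  have hb' : (1 : ℝ) ≤ b := by exact_mod_cast hb
  have hpos : (0 : ℝ) < (Fintype.card (V b (b * 2 ^ b)) : ℝ) := by
    rw [card_V]
    have h1 : 0 < (b * 2 ^ b) ^ b * 2 ^ b := by positivity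
    exact_mod_cast Nat.add_pos_left h1 _
  have h1 : (Fintype.card (V b (b * 2 ^ b)) : ℝ) ≤ (2 : ℝ) ^ (2 + b + 2 * b ^ 2) := by
    refine (card_le b hb).trans ?_
    have h2 : (((b * 2 ^ b : ℕ) : ℝ)) ^ b ≤ (2 : ℝ) ^ (2 * b ^ 2) := by
      have h3 : (b : ℝ) ≤ 2 ^ b := by
        exact_mod_cast (Nat.lt_two_pow_self).le
      have h4 : ((b * 2 ^ b : ℕ) : ℝ) ≤ (2 : ℝ) ^ (2 * b) := by
        push_cast
        rw [two_mul, pow_add]
        exact mul_le_mul_of_nonneg_right h3 (by positivity)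
      refine (pow_le_pow_left₀ (by positivity) h4 b).trans ?_
      rw [← pow_mul]
      apply le_of_eq
      congr 1
      ring
    rw [pow_add, pow_add]
    have h5 : (0 : ℝ) < 2 ^ b := by positivity
    nlinarith
  have h6 := Real.log_le_log hpos h1
  rw [Real.log_pow] at h6
  refine h6.trans ?_
  push_cast
  have h7 : Real.log 2 ≤ 1 := by
    have := Real.log_two_lt_d9
    linarith
  have h8 : (0 : ℝ) ≤ 2 + b + 2 * (b : ℝ) ^ 2 := by positivity
  nlinarith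

theorem not_polylog (c : ℕ) (C : ℝ)
    (h : ∀ n : ℕ, 2 ≤ n → ∀ (G : SimpleGraph (Fin n)) (M : Sym2 (Fin n) → ℕ),
      Set.InjOn M G.edgeSet → (¬ ∃ φ : Fin 7 ↪ Fin n, IsCopy G M φ) →
        (G.edgeSet.ncard : ℝ) ≤ C * (n : ℝ) * (Real.log (n : ℝ)) ^ c) : False := by
  have key : ∀ b : ℕ, 1 ≤ b → (2 : ℝ) ^ b ≤ 4 * |C| * 5 ^ c * (b : ℝ) ^ (2 * c) := by
    intro b hb
    have hb' : (1 : ℝ) ≤ b := by exact_mod_cast hb
    obtain ⟨n, hn⟩ : ∃ n, n = Fintype.card (V b (b * 2 ^ b)) := ⟨_, rfl⟩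
    obtain ⟨G', M', h1, h2, h3⟩ := transfer b (b * 2 ^ b) n hn.symm
    have hn2 : 2 ≤ n := by
      rw [hn, card_V]
      have h4 : 1 ≤ (b * 2 ^ b) ^ b * 2 ^ b := Nat.one_le_iff_ne_zero.2 (by positivity)
      have h5 : 1 ≤ (b * 2 ^ b + 2 ^ b) ^ b * 2 ^ b := Nat.one_le_iff_ne_zero.2 (by positivity)
      omega
    have h4 := h n hn2 G' M' h1 h2
    have hn0 : (0 : ℝ) < n := by
      have : 0 < n := by omega
      exact_mod_cast this
    have h5 : (n : ℝ) * 2 ^ b ≤ 4 * (G'.edgeSet.ncard : ℝ) := by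
      have h6 := card_le b hb
      rw [← hn] at h6
      have h7 : (((b * 2 ^ b : ℕ) : ℝ)) ^ b * 2 ^ b * 2 ^ b ≤ (G'.edgeSet.ncard : ℝ) := by
        exact_mod_cast h3
      have h8 : (0 : ℝ) < 2 ^ b := by positivity
      nlinarith
    have hlog := log_le b hb
    rw [← hn] at hlog
    have hlog0 : 0 ≤ Real.log n := Real.log_natCast_nonneg n
    have h9 : C * (n : ℝ) * (Real.log n) ^ c ≤ |C| * n * (5 * (b : ℝ) ^ 2) ^ c := by
      have e1 : (Real.log n) ^ c ≤ (5 * (b : ℝ) ^ 2) ^ c := pow_le_pow_left₀ hlog0 hlog c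
      have e2 : C * (n : ℝ) ≤ |C| * n := mul_le_mul_of_nonneg_right (le_abs_self C) hn0.le
      have e3 : 0 ≤ |C| * n := by positivity
      have e4 : 0 ≤ (Real.log n) ^ c := by positivity
      calc C * (n : ℝ) * (Real.log n) ^ c ≤ |C| * n * (Real.log n) ^ c :=
            mul_le_mul_of_nonneg_right e2 e4
        _ ≤ _ := mul_le_mul_of_nonneg_left e1 e3
    have h10 : (n : ℝ) * 2 ^ b ≤ n * (4 * |C| * 5 ^ c * (b : ℝ) ^ (2 * c)) := by
      have e5 : (5 * (b : ℝ) ^ 2) ^ c = 5 ^ c * (b : ℝ) ^ (2 * c) := by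
        rw [mul_pow, ← pow_mul]
      rw [e5] at h9
      calc (n : ℝ) * 2 ^ b ≤ 4 * (G'.edgeSet.ncard : ℝ) := h5
        _ ≤ 4 * (|C| * n * (5 ^ c * (b : ℝ) ^ (2 * c))) := by linarith
        _ = _ := by ring
    exact le_of_mul_le_mul_left h10 hn0
  have ht := tendsto_pow_const_div_const_pow_of_one_lt (2 * c) (r := (2 : ℝ)) (by norm_num)
  have hK : (0 : ℝ) < 1 / (4 * |C| * 5 ^ c + 1) := by positivity
  obtain ⟨b, hb1, hb2⟩ := ((ht.eventually (gt_mem_nhds hK)).and (eventually_ge_atTop 1)).exists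
  have h1 := key b hb2
  have h2 : (0 : ℝ) < 2 ^ b := by positivity
  have h3 : (0 : ℝ) < 4 * |C| * 5 ^ c + 1 := by positivity
  rw [div_lt_div_iff₀ h2 h3, one_mul] at hb1
  have h4 : (0 : ℝ) < (b : ℝ) ^ (2 * c) := by
    have : (0 : ℝ) < b := by exact_mod_cast hb2
    positivity
  nlinarith

end Pool.Agent.Zk56.EO
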