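import Mathlib

set_option autoImplicit false

/-! The arithmetic core: four positions with parallel differences in the lexicographic order. -/

namespace Pool.Agent.Zk56.EO

/-- consequence of `q ≤ q'` in the lexicographic order -/
def LexLE {b : ℕ} (q q' : Fin b → ℤ) : Prop := ∀ i, (∀ j < i, q j = q' j) → q i ≤ q' i

/-- the possible values of the coordinates of the directions -/
def Tri (x : ℤ) : Prop := x = -1 ∨ x = 0 ∨ x = 1

theorem core {b : ℕ} (q1 q2 q3 q4 u v w : Fin b → ℤ) (t1 t2 t3 : ℤ)
    (ht1 : t2 < t1) (ht2 : t3 < t2) (ht3 : 0 < t3)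
    (hu : ∀ i, Tri (u i)) (hv : ∀ i, Tri (v i)) (hw : ∀ i, Tri (w i))
    (h31 : ∀ i, q3 i = q1 i + t1 * u i) (h41 : ∀ i, q4 i = q1 i + t2 * v i)
    (h42 : ∀ i, q4 i = q2 i + t3 * w i)
    (o12 : LexLE q1 q2) (o23 : LexLE q2 q3) (o34 : LexLE q3 q4)
    (o13 : LexLE q1 q3) (o14 : LexLE q1 q4) (o24 : LexLE q2 q4)
    (hv0 : v ≠ 0) : False := by
  classical
  have hex : ∃ i, v i ≠ 0 := by
    by_contra h
    push Not at h
    exact hv0 (funext h)
  -- the first nonzero coordinate of `v`
  obtain ⟨β, hβ, hβm⟩ : ∃ β, v β ≠ 0 ∧ ∀ j < β, v j = 0 := by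
    have hne : (Finset.univ.filter fun i => v i ≠ 0).Nonempty := by
      obtain ⟨i, hi⟩ := hex
      exact ⟨i, by simpa using hi⟩
    refine ⟨(Finset.univ.filter fun i => v i ≠ 0).min' hne, ?_, fun j hj => ?_⟩
    · have := Finset.min'_mem _ hne
      simpa using this
    · by_contra h
      have := Finset.min'_le (Finset.univ.filter fun i => v i ≠ 0) j (by simpa using h)
      exact absurd hj (not_lt.2 this)
  have hvβ : v β = 1 := by
    have h1 := o14 β (fun j hj => by rw [h41 j, hβm j hj]; ring)
    rw [h41 β] at h1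
    rcases hv β with h | h | h
    · rw [h] at h1; nlinarith
    · exact absurd h hβ
    · exact h
  have hu0 : ∀ j : Fin b, j ≤ β → u j = 0 := by
    intro j
    induction j using WellFoundedLT.induction with
    | _ j ih =>
    intro hj
    have hk : ∀ k < j, u k = 0 := fun k hk => ih k hk (hk.le.trans hj)
    have h1 := o13 j (fun k hk' => by rw [h31 k, hk k hk']; ring)
    have h2 := o34 j (fun k hk' => by
      rw [h31 k, h41 k, hk k hk', hβm k (lt_of_lt_of_le hk' hj)]; ring)
    rw [h31 j] at h1
    rw [h31 j, h41 j] at h2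
    rcases hu j with h | h | h
    · rw [h] at h1; nlinarith
    · exact h
    · exfalso
      rw [h] at h2
      rcases hj.lt_or_eq with h' | h'
      · rw [hβm j h'] at h2; nlinarith
      · rw [h', hvβ] at h2; nlinarith
  have hw0 : ∀ j : Fin b, j < β → w j = 0 := by
    intro j
    induction j using WellFoundedLT.induction with
    | _ j ih =>
    intro hj
    have hk : ∀ k < j, w k = 0 := fun k hk => ih k hk (hk.trans hj)
    have h1 := o24 j (fun k hk' => by rw [h42 k, hk k hk']; ring)
    have h2 := o12 j (fun k hk' => by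
      have e1 := h41 k
      have e2 := h42 k
      rw [hβm k (hk'.trans hj)] at e1
      rw [hk k hk'] at e2
      linarith)
    rw [h42 j] at h1
    have e1 := h41 j
    have e2 := h42 j
    rw [hβm j hj] at e1
    rcases hw j with h | h | h
    · rw [h] at h1; nlinarith
    · exact h
    · exfalso
      rw [h] at e2
      nlinarith
  have h3 := o23 β (fun j hj => by
    have e1 := h31 j
    have e2 := h41 j
    have e3 := h42 j
    rw [hu0 j hj.le] at e1
    rw [hβm j hj] at e2
    rw [hw0 j hj] at e3
    linarith)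
  have e1 := h31 β
  have e2 := h41 β
  have e3 := h42 β
  rw [hu0 β le_rfl] at e1
  rw [hvβ] at e2
  rcases hw β with h | h | h <;> rw [h] at e3 <;> nlinarith

end Pool.Agent.Zk56.EO
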