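import Pool.Agent.Zk56.EO.Defs
import Pool.Agent.Zk56.EO.Arith

set_option autoImplicit false

/-! The construction: rows `(p, τ)`, columns `(q, σ)`, `q = p + ν(τ) (τ xor σ)`. -/

namespace Pool.Agent.Zk56.EO

abbrev S (b : ℕ) := Fin b → Bool

noncomputable def nu {b : ℕ} (s : S b) : ℕ := (Fintype.equivFin (S b) s).val + 1

theorem nu_inj {b : ℕ} {s s' : S b} (h : nu s = nu s') : s = s' := by
  unfold nu at h
  exact (Fintype.equivFin (S b)).injective (Fin.ext (by omega))

theorem nu_pos {b : ℕ} (s : S b) : 0 < nu s := Nat.succ_pos _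

theorem card_S (b : ℕ) : Fintype.card (S b) = 2 ^ b := by simp

theorem nu_le {b : ℕ} (s : S b) : nu s ≤ 2 ^ b := by
  have h := (Fintype.equivFin (S b) s).isLt
  rw [← card_S b]
  exact h

abbrev Row (b m : ℕ) := (Fin b → Fin m) × S b
abbrev Col (b m : ℕ) := (Fin b → Fin (m + 2 ^ b)) × S b
abbrev V (b m : ℕ) := Row b m ⊕ Col b m

/-- incidence of rows and columns -/
def R {b m : ℕ} (r : Row b m) (c : Col b m) : Prop :=
  ∀ i, (c.1 i : ℕ) = (r.1 i : ℕ) + if r.2 i = c.2 i then 0 else nu r.2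

def Adj' {b m : ℕ} : V b m → V b m → Prop
  | .inl r, .inr c => R r c
  | .inr c, .inl r => R r c
  | _, _ => False

def G (b m : ℕ) : SimpleGraph (V b m) where
  Adj := Adj'
  symm := ⟨fun x y h => by
    rcases x with x | x <;> rcases y with y | y <;> exact h⟩
  loopless := ⟨fun x h => by rcases x with x | x <;> exact h⟩

open Classical in
/-- the rank of a position in the lexicographic order -/
noncomputable def rq {b n : ℕ} (q : Fin b → Fin n) : ℕ :=
  (Finset.univ.filter fun q' : Fin b → Fin n => toLex q' < toLex q).card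

theorem rq_lt {b n : ℕ} {q q' : Fin b → Fin n} (h : toLex q < toLex q') : rq q < rq q' := by
  classical
  unfold rq
  apply Finset.card_lt_card
  rw [Finset.ssubset_iff_of_subset]
  · exact ⟨q, by simpa using h, by
      simp only [Finset.mem_filter, Finset.mem_univ, true_and]
      exact lt_irrefl _⟩
  · intro x hx
    simp only [Finset.mem_filter, Finset.mem_univ, true_and] at hx ⊢
    exact hx.trans h

theorem le_of_rq {b n : ℕ} {q q' : Fin b → Fin n} (h : rq q ≤ rq q') : toLex q ≤ toLex q' := by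
  by_contra hc
  exact absurd (rq_lt (not_le.1 hc)) (not_lt.2 h)

theorem rq_inj {b n : ℕ} {q q' : Fin b → Fin n} (h : rq q = rq q') : q = q' :=
  toLex.injective (le_antisymm (le_of_rq h.le) (le_of_rq h.ge))

theorem lexLE_of_rq {b n : ℕ} {q q' : Fin b → Fin n} (h : rq q ≤ rq q') :
    LexLE (fun i => ((q i : ℕ) : ℤ)) (fun i => ((q' i : ℕ) : ℤ)) := by
  intro i hi
  rcases (le_of_rq h).lt_or_eq with h1 | h1
  · obtain ⟨k, hk1, hk2⟩ := h1
    rcases lt_trichotomy i k with h2 | h2 | h2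
    · have := hk1 i h2
      change q i = q' i at this
      show ((q i : ℕ) : ℤ) ≤ ((q' i : ℕ) : ℤ)
      rw [this]
    · subst h2
      change q i < q' i at hk2
      have : (q i : ℕ) < (q' i : ℕ) := hk2
      show ((q i : ℕ) : ℤ) ≤ ((q' i : ℕ) : ℤ)
      exact_mod_cast this.le
    · exfalso
      have h3 := hi k h2
      change q k < q' k at hk2
      have h4 : (q k : ℕ) < (q' k : ℕ) := hk2
      have h5 : ((q k : ℕ) : ℤ) = ((q' k : ℕ) : ℤ) := h3
      have h6 : (q k : ℕ) = (q' k : ℕ) := by exact_mod_cast h5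
      omega
  · have : q = q' := toLex.injective h1
    rw [this]

/-- the key of a column -/
noncomputable def ck {b m : ℕ} (c : Col b m) : ℕ := rq c.1 * (2 ^ b + 1) + nu c.2

theorem digit {B x y x' y' : ℕ} (hy' : y' < B) (h : x * B + y ≤ x' * B + y') :
    x ≤ x' := by
  by_contra hc
  push Not at hc
  have h1 : (x' + 1) * B ≤ x * B := Nat.mul_le_mul_right B hc
  rw [add_mul, one_mul] at h1
  omega

theorem rq_of_ck {b m : ℕ} {c c' : Col b m} (h : ck c ≤ ck c') : rq c.1 ≤ rq c'.1 := by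
  have h2 := nu_le c'.2
  exact digit (Nat.lt_succ_of_le h2) h

theorem ck_inj {b m : ℕ} {c c' : Col b m} (h : ck c = ck c') : c = c' := by
  have h1 : rq c.1 = rq c'.1 := le_antisymm (rq_of_ck h.le) (rq_of_ck h.ge)
  unfold ck at h
  rw [h1] at h
  exact Prod.ext (rq_inj h1) (nu_inj (by omega))

/-- the label of an edge -/
noncomputable def lam {b m : ℕ} (r : Row b m) (c : Col b m) : ℕ :=
  ck c * (2 ^ b + 1) + (2 ^ b - nu r.2)

theorem ck_of_lam {b m : ℕ} {r r' : Row b m} {c c' : Col b m} (h : lam r c < lam r' c') :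
    ck c ≤ ck c' :=
  digit (Nat.lt_succ_of_le (Nat.sub_le _ _)) h.le

theorem nu_of_lam {b m : ℕ} {r r' : Row b m} {c : Col b m} (h : lam r c < lam r' c) :
    nu r'.2 < nu r.2 := by
  unfold lam at h
  have h1 := nu_le r.2
  have h2 := nu_le r'.2
  omega

theorem R_unique {b m : ℕ} {r r' : Row b m} {c : Col b m} (h : R r c) (h' : R r' c)
    (hr : r.2 = r'.2) : r = r' := by
  refine Prod.ext (funext fun i => Fin.ext ?_) hr
  have h1 := h i
  have h2 := h' i
  rw [hr] at h1
  omega

theorem lam_inj {b m : ℕ} {r r' : Row b m} {c c' : Col b m} (hR : R r c) (hR' : R r' c')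
    (h : lam r c = lam r' c') : r = r' ∧ c = c' := by
  have h1 : ck c = ck c' := le_antisymm
    (digit (Nat.lt_succ_of_le (Nat.sub_le _ _)) h.le)
    (digit (Nat.lt_succ_of_le (Nat.sub_le _ _)) h.ge)
  have hc := ck_inj h1
  subst hc
  unfold lam at h
  have h2 := nu_le r.2
  have h3 := nu_le r'.2
  exact ⟨R_unique hR hR' (nu_inj (by omega)), rfl⟩

noncomputable def lab' {b m : ℕ} : V b m → V b m → ℕ
  | .inl r, .inr c => lam r c
  | .inr c, .inl r => lam r c
  | _, _ => 0

noncomputable def M (b m : ℕ) : Sym2 (V b m) → ℕ :=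
  Sym2.lift ⟨lab', fun x y => by rcases x with x | x <;> rcases y with y | y <;> rfl⟩

theorem M_lr {b m : ℕ} (r : Row b m) (c : Col b m) : M b m s(.inl r, .inr c) = lam r c := rfl
theorem M_rl {b m : ℕ} (r : Row b m) (c : Col b m) : M b m s(.inr c, .inl r) = lam r c := rfl

theorem M_injOn (b m : ℕ) : Set.InjOn (M b m) (G b m).edgeSet := by
  have hform : ∀ e ∈ (G b m).edgeSet, ∃ (r : Row b m) (c : Col b m), e = s(.inl r, .inr c) ∧ R r c := by
    intro e he
    induction e using Sym2.ind with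
    | _ x y =>
    rw [SimpleGraph.mem_edgeSet] at he
    rcases x with x | x <;> rcases y with y | y
    · exact absurd he id
    · exact ⟨x, y, rfl, he⟩
    · exact ⟨y, x, Sym2.eq_swap, he⟩
    · exact absurd he id
  intro e he f hf h
  obtain ⟨r, c, rfl, h1⟩ := hform e he
  obtain ⟨r', c', rfl, h2⟩ := hform f hf
  rw [M_lr, M_lr] at h
  obtain ⟨h3, h4⟩ := lam_inj h1 h2 h
  rw [h3, h4]

/-- the bit of an incidence -/
def bt {b m : ℕ} (r : Row b m) (c : Col b m) (i : Fin b) : ℤ := if r.2 i = c.2 i then 0 else 1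

theorem R_bt {b m : ℕ} {r : Row b m} {c : Col b m} (h : R r c) (i : Fin b) :
    ((c.1 i : ℕ) : ℤ) = ((r.1 i : ℕ) : ℤ) + (nu r.2 : ℤ) * bt r c i := by
  have h1 := h i
  unfold bt
  split_ifs with h2
  · rw [if_pos h2] at h1
    rw [h1]; push_cast; ring
  · rw [if_neg h2] at h1
    rw [h1]; push_cast; ring

theorem bt_tri {b m : ℕ} (r : Row b m) (c c' : Col b m) (i : Fin b) :
    Tri (bt r c' i - bt r c i) := by
  unfold bt Tri
  split_ifs <;> norm_num

theorem eq_of_bt {b m : ℕ} {r : Row b m} {c c' : Col b m} (h : R r c) (h' : R r c')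
    (hb : ∀ i, bt r c' i - bt r c i = 0) : c = c' := by
  refine Prod.ext (funext fun i => Fin.ext ?_) (funext fun i => ?_)
  · have h1 := R_bt h i
    have h2 := R_bt h' i
    have h3 : bt r c' i = bt r c i := by linarith [hb i]
    rw [h3] at h2
    have h4 : ((c.1 i : ℕ) : ℤ) = ((c'.1 i : ℕ) : ℤ) := by rw [h1, h2]
    exact_mod_cast h4
  · have h3 := hb i
    unfold bt at h3
    generalize r.2 i = x at h3
    generalize c.2 i = y at h3 ⊢
    generalize c'.2 i = z at h3 ⊢
    revert h3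
    cases x <;> cases y <;> cases z <;> simp

theorem no_copy (b m : ℕ) :
    ¬ ∃ φ : Fin 7 ↪ V b m, (∀ x y, F.Adj x y → (G b m).Adj (φ x) (φ y)) ∧
      ∀ e ∈ F.edgeSet, ∀ f ∈ F.edgeSet, L e < L f →
        M b m (Sym2.map (⇑φ) e) < M b m (Sym2.map (⇑φ) f) := by
  rintro ⟨φ, hA, hO⟩
  have a01 := hA 0 1 (by decide)
  have a12 := hA 1 2 (by decide)
  have a23 := hA 2 3 (by decide)
  have a34 := hA 3 4 (by decide)
  have a45 := hA 4 5 (by decide)
  have a56 := hA 5 6 (by decide)
  have o1 : M b m s(φ 1, φ 2) < M b m s(φ 2, φ 3) :=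
    hO s(1, 2) (by decide) s(2, 3) (by decide) (by decide)
  have o2 : M b m s(φ 2, φ 3) < M b m s(φ 5, φ 6) :=
    hO s(2, 3) (by decide) s(5, 6) (by decide) (by decide)
  have o3 : M b m s(φ 5, φ 6) < M b m s(φ 0, φ 1) :=
    hO s(5, 6) (by decide) s(0, 1) (by decide) (by decide)
  have o4 : M b m s(φ 0, φ 1) < M b m s(φ 3, φ 4) :=
    hO s(0, 1) (by decide) s(3, 4) (by decide) (by decide)
  have o5 : M b m s(φ 3, φ 4) < M b m s(φ 4, φ 5) :=
    hO s(3, 4) (by decide) s(4, 5) (by decide) (by decide)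
  have n24 : φ 2 ≠ φ 4 := fun h => absurd (φ.injective h) (by decide)
  have n13 : φ 1 ≠ φ 3 := fun h => absurd (φ.injective h) (by decide)
  generalize φ 0 = x0 at *
  generalize φ 1 = x1 at *
  generalize φ 2 = x2 at *
  generalize φ 3 = x3 at *
  generalize φ 4 = x4 at *
  generalize φ 5 = x5 at *
  generalize φ 6 = x6 at *
  rcases x0 with r0 | c3
  · rcases x1 with r | C1
    · exact a01
    rcases x2 with r2 | c
    swap
    · exact a12
    rcases x3 with r | C3
    · exact a23
    rcases x4 with r4 | c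
    swap
    · exact a34
    rcases x5 with r | C5
    · exact a45
    rcases x6 with r6 | c
    swap
    · exact a56
    have k1 : ck C1 ≤ ck C3 := ck_of_lam o1
    have k2 : ck C3 ≤ ck C5 := ck_of_lam o2
    have k3 : ck C5 ≤ ck C1 := ck_of_lam o3
    exact n13 (congrArg Sum.inr (ck_inj (le_antisymm k1 (k2.trans k3))))
  · rcases x1 with r1 | C1
    swap
    · exact a01
    rcases x2 with r2 | c1
    · exact a12
    rcases x3 with r2 | C3
    swap
    · exact a23
    rcases x4 with r4 | c4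
    · exact a34
    rcases x5 with r3 | C5
    swap
    · exact a45
    rcases x6 with r6 | c2
    · exact a56
    have R13 : R r1 c3 := a01
    have R11 : R r1 c1 := a12
    have R21 : R r2 c1 := a23
    have R24 : R r2 c4 := a34
    have R34 : R r3 c4 := a45
    have R32 : R r3 c2 := a56
    have t12 : nu r2.2 < nu r1.2 := nu_of_lam (c := c1) o1
    have t23 : nu r3.2 < nu r2.2 := nu_of_lam (c := c4) o5
    have k12 : rq c1.1 ≤ rq c2.1 := rq_of_ck (ck_of_lam o2)
    have k23 : rq c2.1 ≤ rq c3.1 := rq_of_ck (ck_of_lam o3)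
    have k34 : rq c3.1 ≤ rq c4.1 := rq_of_ck (ck_of_lam o4)
    refine core (fun i => ((c1.1 i : ℕ) : ℤ)) (fun i => ((c2.1 i : ℕ) : ℤ))
      (fun i => ((c3.1 i : ℕ) : ℤ)) (fun i => ((c4.1 i : ℕ) : ℤ))
      (fun i => bt r1 c3 i - bt r1 c1 i) (fun i => bt r2 c4 i - bt r2 c1 i)
      (fun i => bt r3 c4 i - bt r3 c2 i) (nu r1.2) (nu r2.2) (nu r3.2)
      (by exact_mod_cast t12) (by exact_mod_cast t23) (by exact_mod_cast nu_pos r3.2)
      (bt_tri r1 c1 c3) (bt_tri r2 c1 c4) (bt_tri r3 c2 c4)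
      (fun i => ?_) (fun i => ?_) (fun i => ?_)
      (lexLE_of_rq k12) (lexLE_of_rq k23) (lexLE_of_rq k34) (lexLE_of_rq (k12.trans k23))
      (lexLE_of_rq (k12.trans (k23.trans k34))) (lexLE_of_rq (k23.trans k34)) (fun h0 => ?_)
    · have e1 := R_bt R13 i
      have e2 := R_bt R11 i
      rw [e1, e2]; ring
    · have e1 := R_bt R24 i
      have e2 := R_bt R21 i
      rw [e1, e2]; ring
    · have e1 := R_bt R34 i
      have e2 := R_bt R32 i
      rw [e1, e2]; ring
    · exact n24 (congrArg Sum.inr (eq_of_bt R21 R24 fun i => congrFun h0 i))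

/-- the other end of the edge with the direction `s` -/
noncomputable def colOf {b m : ℕ} (r : Row b m) (s : S b) : Col b m :=
  (fun i => ⟨(r.1 i : ℕ) + if s i then nu r.2 else 0, by
    have h1 := (r.1 i).isLt
    have h2 := nu_le r.2
    split_ifs <;> omega⟩, fun i => xor (r.2 i) (s i))

theorem R_colOf {b m : ℕ} (r : Row b m) (s : S b) : R r (colOf r s) := by
  intro i
  show (r.1 i : ℕ) + (if s i then nu r.2 else 0) =
    (r.1 i : ℕ) + if r.2 i = xor (r.2 i) (s i) then 0 else nu r.2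
  cases h1 : r.2 i <;> cases h2 : s i <;> simp

theorem colOf_inj {b m : ℕ} {r : Row b m} {s s' : S b} (h : colOf r s = colOf r s') : s = s' := by
  funext i
  have h1 : xor (r.2 i) (s i) = xor (r.2 i) (s' i) := congrFun (congrArg Prod.snd h) i
  revert h1
  cases r.2 i <;> cases s i <;> cases s' i <;> simp

end Pool.Agent.Zk56.EO
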