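import Mathlib

set_option autoImplicit false

/-! The edge-ordered path with ranks `4 1 2 5 6 3`. -/

namespace Pool.Agent.Zk56.EO

/-- rank of the edge `{i, i + 1}` of the path `0, 1, ..., 6` -/
def wt : ℕ → ℕ
  | 0 => 4
  | 1 => 1
  | 2 => 2
  | 3 => 5
  | 4 => 6
  | _ => 3

/-- the path with seven vertices -/
def F : SimpleGraph (Fin 7) where
  Adj a b := a.val + 1 = b.val ∨ b.val + 1 = a.val
  symm := ⟨fun _ _ h => h.symm⟩
  loopless := ⟨fun a h => by omega⟩

instance : DecidableRel F.Adj := fun a b =>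
  inferInstanceAs (Decidable (a.val + 1 = b.val ∨ b.val + 1 = a.val))

theorem F_adj (a b : Fin 7) : F.Adj a b ↔ (a.val + 1 = b.val ∨ b.val + 1 = a.val) := Iff.rfl

theorem F_eq : F = SimpleGraph.pathGraph 7 := by
  ext a b
  rw [F_adj, SimpleGraph.pathGraph_adj]

/-- the edge order of the path -/
def L : Sym2 (Fin 7) → ℕ :=
  Sym2.lift ⟨fun a b => wt (min a.val b.val), fun a b => by
    show wt (min a.val b.val) = wt (min b.val a.val)
    rw [min_comm]⟩

theorem L_mk (a b : Fin 7) : L s(a, b) = wt (min a.val b.val) := rfl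

theorem F_acyclic : F.IsAcyclic := by
  have h : F.IsTree := by
    rw [SimpleGraph.isTree_iff_connected_and_card]
    refine ⟨by rw [F_eq]; exact SimpleGraph.pathGraph_connected 6, ?_⟩
    rw [Nat.card_eq_fintype_card, Nat.card_eq_fintype_card]
    decide
  exact h.isAcyclic

theorem L_injOn : Set.InjOn L F.edgeSet := by
  intro e he f hf h
  induction e using Sym2.ind with
  | _ a b =>
  induction f using Sym2.ind with
  | _ c d =>
  rw [SimpleGraph.mem_edgeSet, F_adj] at he hf
  rw [L_mk, L_mk] at h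
  revert a b c d
  decide

end Pool.Agent.Zk56.EO
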