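import Pool.Agent.Zk56.EO.Defs
import Pool.Agent.H430R3.SW.Ramsey

set_option autoImplicit false

/-! Dense edge-ordered graphs contain the path. -/

namespace Pool.Agent.Zk56.EO

open Finset

/-- the pattern in a labelled complete bipartite graph -/
def HasF {α β : Type*} (l : α → β → ℕ) : Prop :=
  ∃ (r1 r2 r3 : α) (c1 c2 c3 c4 : β), r1 ≠ r2 ∧ r1 ≠ r3 ∧ r2 ≠ r3 ∧
    c1 ≠ c2 ∧ c1 ≠ c3 ∧ c1 ≠ c4 ∧ c2 ≠ c3 ∧ c2 ≠ c4 ∧ c3 ≠ c4 ∧
    l r1 c1 < l r2 c1 ∧ l r2 c1 < l r3 c2 ∧ l r3 c2 < l r1 c3 ∧ l r1 c3 < l r2 c4 ∧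
    l r2 c4 < l r3 c4

theorem triple (l : Fin 7 → Fin 6 → ℕ) (hinj : ∀ i j p q, l i p = l j q → i = j ∧ p = q)
    (hW : ∀ i j, i < j → ∀ p : Fin 6, p.val < 5 → l i p < l j p)
    (X : Fin 7 → Fin 7 → Prop) (hX : ∀ i j, ∀ p q : Fin 6, p < q → (l i p < l j q ↔ X i j))
    (a b c : Fin 7) (hab : a < b) (hbc : b < c) (h : ¬ X a c ∨ X c a) : HasF l := by
  have hac := hab.trans hbc
  rcases h with h | h
  · have hD : ∀ p q : Fin 6, p < q → l c q < l a p := by
      intro p q hpq
      have h1 : ¬ l a p < l c q := fun h' => h ((hX a c p q hpq).1 h')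
      rcases lt_trichotomy (l a p) (l c q) with h2 | h2 | h2
      · exact absurd h2 h1
      · exact absurd (hinj _ _ _ _ h2).1 hac.ne
      · exact h2
    refine ⟨a, b, c, 3, 2, 1, 0, hab.ne, hac.ne, hbc.ne, by decide, by decide, by decide,
      by decide, by decide, by decide, ?_, ?_, ?_, ?_, ?_⟩
    · exact hW a b hab 3 (by decide)
    · exact (hW b c hbc 3 (by decide)).trans ((hD 2 3 (by decide)).trans (hW a c hac 2 (by decide)))
    · exact hD 1 2 (by decide)
    · exact (hW a c hac 1 (by decide)).trans ((hD 0 1 (by decide)).trans (hW a b hab 0 (by decide)))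
    · exact hW b c hbc 0 (by decide)
  · have hI : ∀ p q : Fin 6, p < q → l c p < l a q := fun p q hpq => (hX c a p q hpq).2 h
    refine ⟨a, b, c, 0, 1, 2, 3, hab.ne, hac.ne, hbc.ne, by decide, by decide, by decide,
      by decide, by decide, by decide, ?_, ?_, ?_, ?_, ?_⟩
    · exact hW a b hab 0 (by decide)
    · exact (hW b c hbc 0 (by decide)).trans ((hI 0 1 (by decide)).trans (hW a c hac 1 (by decide)))
    · exact hI 1 2 (by decide)
    · exact (hW a c hac 2 (by decide)).trans ((hI 2 3 (by decide)).trans (hW a b hab 3 (by decide)))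
    · exact hW b c hbc 3 (by decide)

theorem hasF_sorted (l : Fin 7 → Fin 6 → ℕ) (hinj : ∀ i j p q, l i p = l j q → i = j ∧ p = q)
    (hW : ∀ i j, i < j → ∀ p : Fin 6, p.val < 5 → l i p < l j p)
    (X : Fin 7 → Fin 7 → Prop) (hX : ∀ i j, ∀ p q : Fin 6, p < q → (l i p < l j q ↔ X i j)) :
    HasF l ∨ HasF (flip l) := by
  by_cases h1 : ¬ X 0 2 ∨ X 2 0
  · exact Or.inl (triple l hinj hW X hX 0 1 2 (by decide) (by decide) h1)
  by_cases h2 : ¬ X 2 4 ∨ X 4 2
  · exact Or.inl (triple l hinj hW X hX 2 3 4 (by decide) (by decide) h2)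
  by_cases h3 : ¬ X 4 6 ∨ X 6 4
  · exact Or.inl (triple l hinj hW X hX 4 5 6 (by decide) (by decide) h3)
  right
  have sep : ∀ a c : Fin 7, a < c → ¬ (¬ X a c ∨ X c a) → ∀ p q : Fin 6, p.val < 5 →
      q.val < 5 → l a p < l c q := by
    intro a c hac h p q hp hq
    push Not at h
    rcases lt_trichotomy p q with h' | h' | h'
    · exact (hX a c p q h').2 h.1
    · subst h'
      exact hW a c hac p hp
    · have h4 : ¬ l c q < l a p := fun h5 => h.2 ((hX c a q p h').1 h5)
      rcases lt_trichotomy (l a p) (l c q) with h5 | h5 | h5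
      · exact h5
      · exact absurd (hinj _ _ _ _ h5).1 hac.ne
      · exact absurd h5 h4
  have s1 := sep 0 2 (by decide) h1
  have s2 := sep 2 4 (by decide) h2
  have s3 := sep 4 6 (by decide) h3
  have mono : ∀ a : Fin 7, (∀ p q : Fin 6, p < q → l a p < l a q) ∨
      (∀ p q : Fin 6, p < q → l a q < l a p) := by
    intro a
    by_cases h : X a a
    · exact Or.inl fun p q hpq => (hX a a p q hpq).2 h
    · refine Or.inr fun p q hpq => ?_
      have h4 : ¬ l a p < l a q := fun h5 => h ((hX a a p q hpq).1 h5)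
      rcases lt_trichotomy (l a p) (l a q) with h5 | h5 | h5
      · exact absurd h5 h4
      · exact absurd (hinj _ _ _ _ h5).2 hpq.ne
      · exact h5
  have fin : ∀ x1 x2 x3 : Fin 6, x1 ≠ x2 → x1 ≠ x3 → x2 ≠ x3 → x1.val < 5 → x2.val < 5 →
      x3.val < 5 → l 0 x1 < l 0 x2 → l 6 x2 < l 6 x3 → HasF (flip l) := by
    intro x1 x2 x3 n12 n13 n23 b1 b2 b3 k1 k2
    refine ⟨x1, x2, x3, 0, 2, 4, 6, n12, n13, n23, by decide, by decide, by decide,
      by decide, by decide, by decide, k1, ?_, ?_, ?_, k2⟩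
    · exact s1 x2 x3 b2 b3
    · exact s2 x3 x1 b3 b1
    · exact s3 x1 x2 b1 b2
  rcases mono 0 with m0 | m0 <;> rcases mono 6 with m6 | m6
  · exact fin 0 1 2 (by decide) (by decide) (by decide) (by decide) (by decide) (by decide)
      (m0 0 1 (by decide)) (m6 1 2 (by decide))
  · exact fin 0 2 1 (by decide) (by decide) (by decide) (by decide) (by decide) (by decide)
      (m0 0 2 (by decide)) (m6 1 2 (by decide))
  · exact fin 1 0 2 (by decide) (by decide) (by decide) (by decide) (by decide) (by decide)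
      (m0 0 1 (by decide)) (m6 0 2 (by decide))
  · exact fin 2 1 0 (by decide) (by decide) (by decide) (by decide) (by decide) (by decide)
      (m0 1 2 (by decide)) (m6 0 1 (by decide))

/-- every injective labelling of a large complete bipartite graph contains the pattern -/
theorem exists_M0 : ∃ M0 : ℕ, ∀ l : Fin 7 → Fin M0 → ℕ,
    (∀ i j p q, l i p = l j q → i = j ∧ p = q) → HasF l ∨ HasF (flip l) := by
  classical
  obtain ⟨M0, hM0⟩ := Pool.Agent.H430R3.SW.ramsey (α := Fin 7 → Fin 7 → Bool × Bool) 6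
  refine ⟨M0, fun l hinj => ?_⟩
  set l' : Fin 7 → ℕ → ℕ := fun i p => if h : p < M0 then l i ⟨p, h⟩ else 0 with hl'
  obtain ⟨g, hg, hgr, a, ha⟩ := hM0 (fun p q => fun i j =>
    (decide (l' i p < l' j q), decide (l' i p < l' j p)))
  set e : Fin 6 → Fin M0 := fun p => ⟨g p, hgr p⟩ with he
  have hle : ∀ i p, l' i (g p) = l i (e p) := by
    intro i p
    simp only [hl', he, dif_pos (hgr p)]
  have heinj : Function.Injective e := by
    intro p q h
    exact hg.injective (congrArg Fin.val h)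
  have hX : ∀ i j, ∀ p q : Fin 6, p < q → (l i (e p) < l j (e q) ↔ (a i j).1 = true) := by
    intro i j p q hpq
    have h1 := congrFun (congrFun (ha p q hpq) i) j
    have h2 := congrArg Prod.fst h1
    simp only [hle] at h2
    rw [← h2, decide_eq_true_iff]
  have hW : ∀ i j, ∀ p : Fin 6, p.val < 5 → (l i (e p) < l j (e p) ↔ (a i j).2 = true) := by
    intro i j p hp
    have h1 := congrFun (congrFun (ha p 5 (by rw [Fin.lt_def]; exact hp)) i) j
    have h2 := congrArg Prod.snd h1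
    simp only [hle] at h2
    rw [← h2, decide_eq_true_iff]
  -- sort the rows
  set σ := Tuple.sort (fun i : Fin 7 => l i (e 0)) with hσ
  have hmono : Monotone ((fun i : Fin 7 => l i (e 0)) ∘ σ) := Tuple.monotone_sort _
  have key := hasF_sorted (fun i p => l (σ i) (e p))
    (fun i j p q h => by
      obtain ⟨h1, h2⟩ := hinj _ _ _ _ h
      exact ⟨σ.injective h1, heinj h2⟩)
    (fun i j hij p hp => by
      have h1 : l (σ i) (e 0) ≤ l (σ j) (e 0) := hmono hij.le
      have h2 : l (σ i) (e 0) < l (σ j) (e 0) := by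
        refine lt_of_le_of_ne h1 fun h => ?_
        exact hij.ne (σ.injective (hinj _ _ _ _ h).1)
      rw [hW _ _ 0 (by decide)] at h2
      exact (hW _ _ p hp).2 h2)
    (fun i j => (a (σ i) (σ j)).1 = true)
    (fun i j p q hpq => hX _ _ p q hpq)
  rcases key with ⟨r1, r2, r3, c1, c2, c3, c4, n1, n2, n3, m1, m2, m3, m4, m5, m6, o⟩ |
    ⟨r1, r2, r3, c1, c2, c3, c4, n1, n2, n3, m1, m2, m3, m4, m5, m6, o⟩
  · exact Or.inl ⟨σ r1, σ r2, σ r3, e c1, e c2, e c3, e c4, σ.injective.ne n1, σ.injective.ne n2,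
      σ.injective.ne n3, heinj.ne m1, heinj.ne m2, heinj.ne m3, heinj.ne m4, heinj.ne m5,
      heinj.ne m6, o⟩
  · exact Or.inr ⟨e r1, e r2, e r3, σ c1, σ c2, σ c3, σ c4, heinj.ne n1, heinj.ne n2,
      heinj.ne n3, σ.injective.ne m1, σ.injective.ne m2, σ.injective.ne m3, σ.injective.ne m4,
      σ.injective.ne m5, σ.injective.ne m6, o⟩

end Pool.Agent.Zk56.EO
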